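import Pool.Agent.Y524L.St

/-!
# LA524 EN: the cover is contracting

Adapted from `Pool/Agent/Y462/SS/EN.lean` (helper462).
-/

set_option autoImplicit false
set_option linter.unusedSectionVars false

open Classical

namespace Pool.Agent.Y960.LA

open Pool.Agent.Y462.SS hiding psi psi_iA iA dl dl_mul psi_dl_s_ray psi_dl_s_off psi_dl_p EN
open Pool.Agent.Y524L

variable {X : Type} [Finite X] (d : X)

/-- a directed letter; `t = false` means that the steps are finitary -/
structure DL where
  ξ : ℕ → X
  β : PH d (HB d)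
  η : ℕ → X
  t : Bool
  ht : t = false → β.1 ∈ PH d (Fn X)

/-- value of a directed letter -/
noncomputable def DL.ev (l : DL d) : Gm d := dl d l.ξ l.β l.η

/-- the shift of a directed letter -/
def DL.sh (l : DL d) : DL d :=
  ⟨Pool.Agent.Y462.SS.sh l.ξ, shP d l.β, Pool.Agent.Y462.SS.sh l.η, l.t,
    fun h => sh_mem_PH d (l.ht h)⟩

/-- letters -/
inductive Ltr
  | a (a : HB d) : Ltr
  | l (l : DL d) : Ltr

/-- value of a letter -/
noncomputable def ev1 : Ltr d → Gm d
  | .a a => iA d a
  | .l l => l.ev

/-- value of a word -/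
noncomputable def ev : List (Ltr d) → Gm d
  | [] => 1
  | c :: w => ev1 d c * ev w

/-- value of a word of directed letters -/
noncomputable def evP : List (DL d) → Gm d
  | [] => 1
  | c :: w => c.ev * evP w

/-- number of directed letters of type one -/
def n1 : List (Ltr d) → ℕ
  | [] => 0
  | .a _ :: w => n1 w
  | .l l :: w => n1 w + (if l.t = true then 1 else 0)

/-- number of directed letters of type zero -/
def n0 : List (Ltr d) → ℕ
  | [] => 0
  | .a _ :: w => n0 w
  | .l l :: w => n0 w + (if l.t = true then 0 else 1)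

/-- all bounded letters have the property `R` -/
def allA (R : T X → Prop) : List (Ltr d) → Prop
  | [] => True
  | .a a :: w => R a.1 ∧ allA R w
  | .l _ :: w => allA R w

theorem ev_append (u v : List (Ltr d)) : ev d (u ++ v) = ev d u * ev d v := by
  induction u with
  | nil => simp [ev]
  | cons c u ih => rw [List.cons_append, ev, ev, ih, mul_assoc]

theorem allA_mono {R R' : T X → Prop} (h : ∀ g, R g → R' g) (w : List (Ltr d))
    (hw : allA d R w) : allA d R' w := by
  induction w with
  | nil => trivial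
  | cons c w ih =>
    cases c with
    | a a => exact ⟨h _ hw.1, ih hw.2⟩
    | l l => exact ih hw

/-- a uniform index for a monotone family of properties -/
theorem allA_exists (R : ℕ → T X → Prop) (hmono : ∀ n g, R n g → R (n + 1) g)
    (w : List (Ltr d)) (hw : allA d (fun g => ∃ n, R n g) w) : ∃ n, allA d (R n) w := by
  have hle : ∀ m n : ℕ, m ≤ n → ∀ g, R m g → R n g := by
    intro m n hmn
    induction hmn with
    | refl => exact fun g h => h
    | step _ ih => exact fun g h => hmono _ g (ih g h)
  induction w with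
  | nil => exact ⟨0, trivial⟩
  | cons c w ih =>
    cases c with
    | a a =>
      obtain ⟨⟨m, hm⟩, hw⟩ := hw
      obtain ⟨n, hn⟩ := ih hw
      exact ⟨max m n, hle m _ (le_max_left _ _) _ hm,
        allA_mono d (hle n _ (le_max_right _ _)) w hn⟩
    | l l => exact ih hw

theorem psi_iA_s (a : HB d) (x : X) :
    (psi d (iA d a)).s x = iA d ⟨sec a.1 x, (lc_HB d).sec_mem a.1 a.2 x⟩ := by
  rw [psi_iA]; rfl

/-- the bounded letter to which a directed letter changes off its ray -/
noncomputable def DL.off (l : DL d) (y : X) : HB d :=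
  ⟨(l.β.1 0).1.s (Equiv.swap d (l.ξ 0) y), l.β.2.2 0 _⟩

theorem off_fin (l : DL d) (h : l.t = false) (y : X) : (DL.off d l y).1 ∈ Fn X := (l.ht h).2 0 _

/-- sections of words -/
theorem section_word (w : List (Ltr d)) (x : X) : ∃ w' : List (Ltr d),
    (psi d (ev d w)).s x = ev d w' ∧
    (n1 d w' < n1 d w ∨ (n1 d w' = n1 d w ∧ n0 d w' ≤ n0 d w ∧
      (∀ R R' : T X → Prop, (∀ g y, R g → R' (sec g y)) → (∀ g ∈ Fn X, R' g) →
        allA d R w → allA d R' w') ∧
      (n0 d w' = n0 d w → ∀ R R' : T X → Prop, (∀ g y, R g → R' (sec g y)) →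
        allA d R w → allA d R' w'))) := by
  induction w with
  | nil =>
    refine ⟨[], ?_, Or.inr ⟨rfl, le_rfl, fun _ _ _ _ _ => trivial, fun _ _ _ _ _ => trivial⟩⟩
    rw [ev, map_one]
    rfl
  | cons c w ih =>
    obtain ⟨w', h1, h2⟩ := ih
    cases c with
    | a a =>
      refine ⟨.a ⟨sec a.1 ((psi d (ev d w)).p x), (lc_HB d).sec_mem a.1 a.2 _⟩ :: w', ?_, ?_⟩
      · rw [ev, map_mul, Wr.mul_s, h1, ev1, psi_iA_s]
        rfl
      · rcases h2 with h2 | ⟨h2, h3, h4, h5⟩
        · exact Or.inl h2
        · exact Or.inr ⟨h2, h3, fun R R' h6 h7 h8 => ⟨h6 _ _ h8.1, h4 R R' h6 h7 h8.2⟩,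
            fun he R R' h6 h8 => ⟨h6 _ _ h8.1, h5 he R R' h6 h8.2⟩⟩
    | l l =>
      by_cases hx : (psi d (ev d w)).p x = l.ξ 0
      · refine ⟨.l l.sh :: w', ?_, ?_⟩
        · rw [ev, map_mul, Wr.mul_s, h1, hx, ev1, DL.ev, psi_dl_s_ray]
          rfl
        · rcases h2 with h2 | ⟨h2, h3, h4, h5⟩
          · exact Or.inl (Nat.add_lt_add_right h2 _)
          · refine Or.inr ⟨congrArg (· + _) h2, Nat.add_le_add_right h3 _,
              fun R R' h6 h7 h8 => h4 R R' h6 h7 h8, fun he R R' h6 h8 => h5 ?_ R R' h6 h8⟩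
            exact Nat.add_right_cancel he
      · refine ⟨.a (DL.off d l ((psi d (ev d w)).p x)) :: w', ?_, ?_⟩
        · rw [ev, map_mul, Wr.mul_s, h1, ev1, DL.ev, psi_dl_s_off _ _ _ _ _ hx]
          rfl
        · have e1 : n1 d (.a (DL.off d l ((psi d (ev d w)).p x)) :: w') = n1 d w' := rfl
          have e0 : n0 d (.a (DL.off d l ((psi d (ev d w)).p x)) :: w') = n0 d w' := rfl
          have f1 : n1 d (.l l :: w) = n1 d w + (if l.t = true then 1 else 0) := rfl
          have f0 : n0 d (.l l :: w) = n0 d w + (if l.t = true then 0 else 1) := rfl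
          rw [e1, e0, f1, f0]
          by_cases ht : l.t = true
          · left
            rw [if_pos ht]
            rcases h2 with h2 | ⟨h2, -⟩ <;> omega
          · rw [if_neg ht, if_neg ht]
            have hf : l.t = false := by simpa using ht
            rcases h2 with h2 | ⟨h2, h3, h4, -⟩
            · left
              omega
            · refine Or.inr ⟨by omega, by omega, fun R R' h6 h7 h8 =>
                ⟨h7 _ (off_fin d l hf _), h4 R R' h6 h7 h8⟩, fun he => ?_⟩
              omega

/-- words of directed letters as words -/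
def emb : List (DL d) → List (Ltr d) := List.map .l

theorem ev_emb (u : List (DL d)) : ev d (emb d u) = evP d u := by
  induction u with
  | nil => rfl
  | cons c u ih => rw [emb, List.map_cons, ev, evP, ← ih]; rfl

theorem allA_emb (R : T X → Prop) (u : List (DL d)) : allA d R (emb d u) := by
  induction u with
  | nil => trivial
  | cons c u ih => exact ih

theorem n1_sh (u : List (DL d)) : n1 d (emb d (u.map (DL.sh d))) = n1 d (emb d u) := by
  induction u with
  | nil => rfl
  | cons c u ih =>
    change n1 d (emb d (u.map (DL.sh d))) + _ = n1 d (emb d u) + _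
    rw [ih]
    rfl

theorem n0_sh (u : List (DL d)) : n0 d (emb d (u.map (DL.sh d))) = n0 d (emb d u) := by
  induction u with
  | nil => rfl
  | cons c u ih =>
    change n0 d (emb d (u.map (DL.sh d))) + _ = n0 d (emb d u) + _
    rw [ih]
    rfl

/-- a word of depth `0` is a word of directed letters -/
theorem pure_of_dep (w : List (Ltr d)) (h : allA d (IsDep 0) w) :
    ∃ u : List (DL d), ev d w = evP d u ∧ n1 d (emb d u) = n1 d w ∧ n0 d (emb d u) = n0 d w := by
  induction w with
  | nil => exact ⟨[], rfl, rfl, rfl⟩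
  | cons c w ih =>
    cases c with
    | a a =>
      obtain ⟨u, h1, h2, h3⟩ := ih h.2
      refine ⟨u, ?_, h2, h3⟩
      have h4 : a = 1 := Subtype.ext h.1
      rw [ev, h1, ev1, h4, map_one, one_mul]
    | l l =>
      obtain ⟨u, h1, h2, h3⟩ := ih h
      exact ⟨l :: u, by rw [ev, h1]; rfl, congrArg (· + _) h2, congrArg (· + _) h3⟩

/-- the path of `x` through the word stays on the rays -/
def Thr : List (DL d) → X → Prop
  | [], _ => True
  | c :: u, x => Thr u x ∧ (psi d (evP d u)).p x = c.ξ 0

theorem section_thr (u : List (DL d)) (x : X) (h : Thr d u x) :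
    (psi d (evP d u)).s x = evP d (u.map (DL.sh d)) := by
  induction u with
  | nil => rw [evP, map_one]; rfl
  | cons c u ih =>
    rw [evP, map_mul, Wr.mul_s, ih h.1, h.2, DL.ev, psi_dl_s_ray]
    rfl

/-- smaller words -/
def Lt (m m0 : ℕ) (w : List (Ltr d)) : Prop :=
  n1 d w < m ∨ (n1 d w = m ∧ n0 d w < m0 ∧ allA d (· ∈ Fn X) w)

theorem section_not_thr (u : List (DL d)) (x : X) (h : ¬ Thr d u x) :
    ∃ w' : List (Ltr d), (psi d (evP d u)).s x = ev d w' ∧
      Lt d (n1 d (emb d u)) (n0 d (emb d u)) w' := by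
  induction u with
  | nil => exact absurd trivial h
  | cons c u ih =>
    have f1 : n1 d (emb d (c :: u)) = n1 d (emb d u) + (if c.t = true then 1 else 0) := rfl
    have f0 : n0 d (emb d (c :: u)) = n0 d (emb d u) + (if c.t = true then 0 else 1) := rfl
    rw [f1, f0]
    by_cases hu : Thr d u x
    · have hx : (psi d (evP d u)).p x ≠ c.ξ 0 := fun h3 => h ⟨hu, h3⟩
      refine ⟨.a (DL.off d c ((psi d (evP d u)).p x)) :: emb d (u.map (DL.sh d)), ?_, ?_⟩
      · rw [evP, map_mul, Wr.mul_s, section_thr d u x hu, DL.ev, psi_dl_s_off _ _ _ _ _ hx, ev,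
          ev_emb]
        rfl
      · have e1 : n1 d (.a (DL.off d c ((psi d (evP d u)).p x)) :: emb d (u.map (DL.sh d))) =
            n1 d (emb d u) := n1_sh d u
        have e0 : n0 d (.a (DL.off d c ((psi d (evP d u)).p x)) :: emb d (u.map (DL.sh d))) =
            n0 d (emb d u) := n0_sh d u
        unfold Lt
        rw [e1, e0]
        by_cases ht : c.t = true
        · left
          rw [if_pos ht]
          omega
        · right
          rw [if_neg ht, if_neg ht]
          exact ⟨rfl, by omega, off_fin d c (by simpa using ht) _, allA_emb d _ _⟩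
    · obtain ⟨v, h3, h4⟩ := ih hu
      by_cases hx : (psi d (evP d u)).p x = c.ξ 0
      · refine ⟨.l c.sh :: v, ?_, ?_⟩
        · rw [evP, map_mul, Wr.mul_s, h3, hx, DL.ev, psi_dl_s_ray]
          rfl
        · rcases h4 with h4 | ⟨h4, h5, h6⟩
          · exact Or.inl (Nat.add_lt_add_right h4 _)
          · exact Or.inr ⟨congrArg (· + _) h4, Nat.add_lt_add_right h5 _, h6⟩
      · refine ⟨.a (DL.off d c ((psi d (evP d u)).p x)) :: v, ?_, ?_⟩
        · rw [evP, map_mul, Wr.mul_s, h3, DL.ev, psi_dl_s_off _ _ _ _ _ hx]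
          rfl
        · have e1 : n1 d (.a (DL.off d c ((psi d (evP d u)).p x)) :: v) = n1 d v := rfl
          have e0 : n0 d (.a (DL.off d c ((psi d (evP d u)).p x)) :: v) = n0 d v := rfl
          unfold Lt
          rw [e1, e0]
          by_cases ht : c.t = true
          · left
            rw [if_pos ht]
            rcases h4 with h4 | ⟨h4, -⟩ <;> omega
          · rw [if_neg ht, if_neg ht]
            rcases h4 with h4 | ⟨h4, h5, h6⟩
            · left
              omega
            · right
              exact ⟨by omega, by omega, off_fin d c (by simpa using ht) _, h6⟩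

theorem thr_two (c e : DL d) (u : List (DL d)) (x : X) (h : Thr d (c :: e :: u) x) :
    c.ξ 0 = e.η 0 := by
  obtain ⟨⟨_, h1⟩, h2⟩ := h
  rw [← h2, evP, map_mul, Wr.mul_p, Equiv.Perm.mul_apply, h1, DL.ev, psi_dl_p,
    Equiv.swap_apply_right, (e.β.1 0).2.1, Equiv.swap_apply_left]

/-- words of directed letters, by induction on the first difference -/
theorem en_pure (m m0 : ℕ) (H : ∀ w : List (Ltr d), Lt d m m0 w → EN d (ev d w))
    (t : ℕ) (c e : DL d) (u : List (DL d)) (hm : n1 d (emb d (c :: e :: u)) = m)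
    (hm0 : n0 d (emb d (c :: e :: u)) = m0)
    (ht : c.ξ t ≠ e.η t) : EN d (evP d (c :: e :: u)) := by
  induction t generalizing c e u with
  | zero =>
    apply Pool.Agent.Y524L.EN.step
    intro x
    have h1 : ¬ Thr d (c :: e :: u) x := fun h => ht (thr_two d c e u x h)
    obtain ⟨w', h2, h3⟩ := section_not_thr d _ x h1
    rw [h2]
    rw [hm, hm0] at h3
    exact H w' h3
  | succ t ih =>
    apply Pool.Agent.Y524L.EN.step
    intro x
    by_cases h1 : Thr d (c :: e :: u) x
    · rw [section_thr d _ x h1]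
      have e1 := n1_sh d (c :: e :: u)
      have e0 := n0_sh d (c :: e :: u)
      rw [hm] at e1
      rw [hm0] at e0
      exact ih c.sh e.sh (u.map (DL.sh d)) e1 e0 ht
    · obtain ⟨w', h2, h3⟩ := section_not_thr d _ x h1
      rw [h2]
      rw [hm, hm0] at h3
      exact H w' h3

/-- the product of two directed letters -/
def DL.comb (c e : DL d) : DL d :=
  ⟨e.ξ, c.β * e.β, c.η, c.t || e.t, fun h => by
    rw [Bool.or_eq_false_iff] at h
    exact mul_mem (c.ht h.1) (e.ht h.2)⟩

/-- words with finitary letters -/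
theorem en_fin (m : ℕ) (H : ∀ w : List (Ltr d), n1 d w < m → EN d (ev d w)) (m0 : ℕ) :
    ∀ w : List (Ltr d), n1 d w = m → n0 d w = m0 → allA d (· ∈ Fn X) w → EN d (ev d w) := by
  induction m0 using Nat.strong_induction_on with
  | _ m0 ih =>
    have H0 : ∀ w : List (Ltr d), Lt d m m0 w → EN d (ev d w) := by
      rintro w (h | ⟨h1, h2, h3⟩)
      · exact H w h
      · exact ih _ h2 w h1 rfl h3
    have hdep : ∀ (j : ℕ) (w : List (Ltr d)), n1 d w = m → n0 d w = m0 →
        allA d (IsDep j) w → EN d (ev d w) := by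
      intro j
      induction j with
      | zero =>
        intro w hw hw0 hd
        obtain ⟨u, h1, h2, h3⟩ := pure_of_dep d w hd
        rw [h1]
        rw [hw] at h2
        rw [hw0] at h3
        match u, h2, h3 with
        | [], _, _ =>
          have h3 : evP d ([] : List (DL d)) = iA d 1 := (map_one _).symm
          rw [h3]
          exact Pool.Agent.Y524L.EN.nucA 1
        | [c], _, _ =>
          have h3 : evP d [c] = dl d c.ξ c.β c.η := mul_one _
          rw [h3]
          exact Pool.Agent.Y524L.EN.nucD _ _ _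
        | c :: e :: u, h2, h3 =>
          by_cases hce : c.ξ = e.η
          · have h4 : evP d (c :: e :: u) = ev d (emb d (DL.comb d c e :: u)) := by
              rw [ev_emb, evP, evP, evP, ← mul_assoc, DL.ev, DL.ev, DL.ev, hce, dl_mul]
              rfl
            rw [h4]
            apply H0
            have f1 : n1 d (emb d (DL.comb d c e :: u)) =
                n1 d (emb d u) + (if (c.t || e.t) = true then 1 else 0) := rfl
            have f0 : n0 d (emb d (DL.comb d c e :: u)) =
                n0 d (emb d u) + (if (c.t || e.t) = true then 0 else 1) := rfl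
            have g1 : n1 d (emb d (c :: e :: u)) = n1 d (emb d u) +
                (if e.t = true then 1 else 0) + (if c.t = true then 1 else 0) := rfl
            have g0 : n0 d (emb d (c :: e :: u)) = n0 d (emb d u) +
                (if e.t = true then 0 else 1) + (if c.t = true then 0 else 1) := rfl
            rw [g1] at h2
            rw [g0] at h3
            unfold Lt
            rw [f1, f0]
            have hA := allA_emb d (· ∈ Fn X) (DL.comb d c e :: u)
            cases hc : c.t <;> cases he : e.t <;> simp [hc, he] at h2 h3 ⊢ <;>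
              first
              | exact Or.inr ⟨by omega, by omega, hA⟩
              | exact Or.inl (by omega)
          · obtain ⟨t, ht⟩ := Function.ne_iff.1 hce
            exact en_pure d m m0 H0 t c e u h2 h3 ht
      | succ j ihj =>
        intro w hw hw0 hd
        apply Pool.Agent.Y524L.EN.step
        intro x
        obtain ⟨w', h1, h2⟩ := section_word d w x
        rw [h1]
        rcases h2 with h2 | ⟨h2, h3, h4, h5⟩
        · exact H w' (hw ▸ h2)
        · rcases h3.lt_or_eq with h3 | h3
          · refine H0 w' (Or.inr ⟨h2.trans hw, hw0 ▸ h3, ?_⟩)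
            exact h4 (IsDep (j + 1)) (· ∈ Fn X) (fun g y hg => ⟨j, hg y⟩) (fun g hg => hg) hd
          · exact ihj w' (h2.trans hw) (h3.trans hw0)
              (h5 h3 (IsDep (j + 1)) (IsDep j) (fun g y hg => hg y) hd)
    intro w hw hw0 hf
    obtain ⟨j, hj⟩ := allA_exists d (fun k g => IsDep k g) (fun n g h => isDep_mono h) w hf
    exact hdep j w hw hw0 hj

/-- directed with finitary steps, or finitary -/
def Nc (g : T X) : Prop := g ∈ Fn X ∨
    ∃ (ξ : ℕ → X) (β : ℕ → BT d) (η : ℕ → X), β ∈ PH d (Fn X) ∧ g = dT d ξ β η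

theorem Nc_sec {g : T X} (hg : Nc d g) (x : X) : Nc d (sec g x) := by
  rcases hg with hg | ⟨ξ, β, η, hβ, rfl⟩
  · exact Or.inl (lc_Fn.sec_mem g hg x)
  · by_cases hx : x = ξ 0
    · subst hx
      exact Or.inr ⟨_, _, _, sh_mem_PH d hβ, sec_dT_ray d ξ β η⟩
    · left
      rw [sec_dT_off d ξ β η x hx]
      exact hβ.2 0 _

/-- all sections of level `n` are in the nucleus -/
def NL (n : ℕ) (g : T X) : Prop := ∀ v : List X, v.length = n → Nc d (secW g v)

theorem NL_sec {n : ℕ} {g : T X} (hg : NL d (n + 1) g) (x : X) : NL d n (sec g x) :=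
  fun v hv => hg (x :: v) (by rw [List.length_cons, hv])

theorem NL_mono (n : ℕ) : ∀ g : T X, NL d n g → NL d (n + 1) g := by
  induction n with
  | zero =>
    intro g hg v hv
    obtain ⟨x, rfl⟩ := List.length_eq_one_iff.1 hv
    exact Nc_sec d (hg [] rfl) x
  | succ n ih =>
    intro g hg v hv
    cases v with
    | nil => simp at hv
    | cons x v => exact ih (sec g x) (NL_sec d hg x) v (by simpa using hv)

theorem NL_fin (n : ℕ) {g : T X} (hg : g ∈ Fn X) : NL d n g :=
  fun v _ => Or.inl (lc_Fn.secW_mem hg v)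

/-- the letters of bounded automorphisms which are directed with finitary steps -/
theorem iA_dir (a : HB d) (ξ : ℕ → X) (β : PH d (HB d)) (η : ℕ → X)
    (hβ : β.1 ∈ PH d (Fn X)) (h : a.1 = dT d ξ β.1 η) : iA d a = dl d ξ β η := by
  set b : HB d := ⟨dT d (cr d) β.1 (cr d), dT_mem_HB d (cr d) hβ (cr d)⟩ with hb
  have h1 : iA d b = iP d β := iA_eq_iP d b β hβ rfl
  have h2 : a * cT d ξ = cT d η * b := by
    apply Subtype.ext
    change a.1 * dT d (cr d) 1 ξ = dT d (cr d) 1 η * dT d (cr d) β.1 (cr d)
    rw [h, dT_mul, dT_mul, mul_one, one_mul]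
  unfold dl
  rw [← h1, ← map_mul, ← h2, map_mul]
  group

/-- a word of level zero is a word with finitary letters -/
theorem conv_word (w : List (Ltr d)) (hw : allA d (NL d 0) w) : ∃ w' : List (Ltr d),
    ev d w = ev d w' ∧ n1 d w' = n1 d w ∧ allA d (· ∈ Fn X) w' := by
  induction w with
  | nil => exact ⟨[], rfl, rfl, trivial⟩
  | cons c w ih =>
    cases c with
    | a a =>
      obtain ⟨w', h1, h2, h3⟩ := ih hw.2
      rcases hw.1 [] rfl with h4 | ⟨ξ, β, η, hβ, h4⟩
      · exact ⟨.a a :: w', by rw [ev, ev, h1], h2, h4, h3⟩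
      · refine ⟨.l ⟨ξ, ⟨β, PH_mono d (Fn_le_HB d) hβ⟩, η, false, fun _ => hβ⟩ :: w', ?_, h2, h3⟩
        rw [ev, ev, h1, ev1, ev1, iA_dir d a ξ ⟨β, PH_mono d (Fn_le_HB d) hβ⟩ η hβ h4]
        rfl
    | l l =>
      obtain ⟨w', h1, h2, h3⟩ := ih hw
      exact ⟨.l l :: w', by rw [ev, ev, h1], congrArg (· + _) h2, h3⟩

theorem en_word (h : S_NUC) (m : ℕ) : ∀ w : List (Ltr d), n1 d w = m → EN d (ev d w) := by
  induction m using Nat.strong_induction_on with
  | _ m ih =>
    have H : ∀ w : List (Ltr d), n1 d w < m → EN d (ev d w) := fun w hw => ih _ hw w rfl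
    have hlev : ∀ (n : ℕ) (w : List (Ltr d)), n1 d w = m → allA d (NL d n) w →
        EN d (ev d w) := by
      intro n
      induction n with
      | zero =>
        intro w hw hn
        obtain ⟨w', h1, h2, h3⟩ := conv_word d w hn
        rw [h1]
        exact en_fin d m H _ w' (h2.trans hw) rfl h3
      | succ n ihn =>
        intro w hw hn
        apply Pool.Agent.Y524L.EN.step
        intro x
        obtain ⟨w', h1, h2⟩ := section_word d w x
        rw [h1]
        rcases h2 with h2 | ⟨h2, -, h4, -⟩
        · exact H w' (hw ▸ h2)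
        · exact ihn w' (h2.trans hw) (h4 (NL d (n + 1)) (NL d n) (fun g y hg => NL_sec d hg y)
            (fun g hg => NL_fin d n hg) hn)
    intro w hw
    have h1 : allA d (fun g => ∃ n, NL d n g) w := by
      have h2 : ∀ w : List (Ltr d), allA d (fun g => ∃ n, NL d n g) w := by
        intro w
        induction w with
        | nil => trivial
        | cons c w ih =>
          cases c with
          | a a => exact ⟨h X d a.1 a.2, ih⟩
          | l l => exact ih
      exact h2 w
    obtain ⟨n, hn⟩ := allA_exists d (NL d) (NL_mono d) w h1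
    exact hlev n w hw hn

theorem mem_Wd (γ : Gm d) : ∃ w : List (Ltr d), γ = ev d w := by
  obtain ⟨g, rfl⟩ := pr_surjective d γ
  induction g using Monoid.Coprod.induction_on with
  | inl a => exact ⟨[.a a], (mul_one _).symm⟩
  | inr p =>
    refine ⟨[.l ⟨cr d, p, cr d, true, fun h => by simp at h⟩], ?_⟩
    have h0 : cT d (cr d) = 1 := Subtype.ext (dT_id d (cr d))
    have h1 : dl d (cr d) p (cr d) = iP d p := by
      unfold dl
      rw [h0, map_one]
      group
    change iP d p = dl d (cr d) p (cr d) * 1
    rw [mul_one, h1]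
  | mul a b ha hb =>
    obtain ⟨u, hu⟩ := ha
    obtain ⟨v, hv⟩ := hb
    exact ⟨u ++ v, by rw [map_mul, hu, hv, ev_append]⟩

theorem t_en (h : S_NUC) : S_EN := by
  intro X _ d γ
  obtain ⟨w, rfl⟩ := mem_Wd d γ
  exact en_word d h _ w rfl

end Pool.Agent.Y960.LA
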